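import Pool.Agent.Run7.h363.CV.Tori
import Pool.Agent.Run7.h363.CV.Growth
import Pool.Agent.Run7.h363.BD.Crit
set_option autoImplicit false

/-!
Beilinson's conjecture for `K_j^{(j)}`, `j = n + 1`, of the hypersurfaces `λ ∏_k P_k(x_k) = 1` of
dimension `n`, `P_k = ∏_{i ≤ r_k} (x - a_{k,i})`: there are `p_g = ∏_k r_k` unramified classes in
Milnor K-theory with linearly independent regulators if the product of `|λ|` and of the smallest critical
values of the polynomials `P_k` is larger than a constant; there is no hypothesis about the distances of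
the roots. Over `ℚ`, for rational integers `m ≠ 0` and different rational integers as roots, there is no
exception if `r_k ≥ 16 (n + 1)` for all `k`, and for the other `r_k` the condition is that
`|m| ∏_k D_k` is larger than a constant, `D_k` the distance of two of the roots.
-/

namespace Pool.Agent.Results.MP_4a177b_nt.CriticalValues

open Polynomial

open Pool.Agent.TH826.MK (KQ symb Unramified Torus)

open Pool.Agent.TH826.MH

variable {n : ℕ}

/-- The conclusions for the hypersurface `λ ∏_k ∏_{i ≤ r_k} (x_k - a_{k,i}) = 1` of dimension `n`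
over the field `K` with the complex embedding `σ`: its coordinate ring is a domain; the hypersurface
is smooth (the gradient does not vanish at the complex points over `σ`); the `∏_k r_k` symbols
`{u_{0,i_0}, ..., u_{n,i_n}}`, `u_{k,i} = (x_k - a_{k,i}) / (x_k - a_{k,i+1})`, are unramified at all
discrete valuations of the function field; and there are `∏_k r_k` tori of dimension `n` in the
complex points (over `σ`) of the hypersurface, such that the determinant of the regulators of the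
symbols on the tori does not vanish. -/
def GenusManyClasses.{u, v} {r : Fin (n + 1) → ℕ} {K : Type u} [Field K] (σ : K →+* ℂ) (lam : K)
    (a : ∀ k, Fin (r k + 1) → K) : Prop :=
  IsDomain (CRing lam a) ∧
  (∀ x : Fin (n + 1) → ℂ, MvPolynomial.eval₂ σ x (eqn lam a) = 0 →
    ∃ k, MvPolynomial.eval₂ σ x (MvPolynomial.pderiv k (eqn lam a)) ≠ 0) ∧
  (∀ (L : Type v) [Field L] [Algebra (CRing lam a) L] [IsFractionRing (CRing lam a) L],
    ∀ i : (∀ k, Fin (r k)),
      KQ.map (n + 1) (algebraMap (CRing lam a) L) (symb (ent lam a i)) ∈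
        Unramified L (n + 1)) ∧
  ∃ Γ : (∀ k, Fin (r k)) → Torus (CRing lam a) n,
    (∀ t θ (x : K), (Γ t).e θ (fpol lam a (MvPolynomial.C x)) = σ x) ∧
    (Matrix.of fun t i : (∀ k, Fin (r k)) => (Γ t).reg (symb (ent lam a i))).det ≠ 0

/-- the constant of the criterion: `48 2^n (n + 1) ∏_k (r_k + 1)^2` -/
noncomputable def bound (r : Fin (n + 1) → ℕ) : ℝ :=
  48 * 2 ^ n * ((n : ℝ) + 1) * (∏ k, ((r k : ℝ) + 1)) ^ 2

theorem criterion.{u, v} (hn : 1 ≤ n) {r : Fin (n + 1) → ℕ} {K : Type u} [Field K]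
    [NumberField K] (σ : K →+* ℂ) (lam : K) (a : ∀ k, Fin (r k + 1) → K)
    (hlam : IsIntegral ℤ lam) (ha : ∀ k i, IsIntegral ℤ (a k i))
    (hinj : ∀ k, Function.Injective (a k)) (c : Fin (n + 1) → ℝ) (hc : ∀ k, 0 < c k)
    (hcrit : ∀ k (ξ : ℂ), (derivative (∏ i, (X - C (σ (a k i))))).eval ξ = 0 →
      c k ≤ ‖∏ i, (ξ - σ (a k i))‖)
    (h : bound r ^ (n + 1) ≤ ‖σ lam‖ * ∏ k, c k) : GenusManyClasses.{u, v} σ lam a := by
  have hb : (48 : ℝ) ≤ bound r := Pool.Agent.Run7.h363.CV.Cn_ge n r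
  have hl0 : lam ≠ 0 := by
    rintro rfl
    rw [map_zero, norm_zero, zero_mul] at h
    have := pow_pos (by linarith : 0 < bound r) (n + 1)
    linarith
  have hev : ∀ k (ξ : ℂ), (∏ i, (X - C (σ (a k i)))).eval ξ = ∏ i, (ξ - σ (a k i)) := by
    intro k ξ
    rw [eval_prod]
    simp
  have hcrit' : ∀ k ξ, (derivative (∏ i, (X - C (σ (a k i))))).eval ξ = 0 →
      c k ≤ ‖(∏ i, (X - C (σ (a k i)))).eval ξ‖ := by
    intro k ξ hξ
    rw [hev]
    exact hcrit k ξ hξ
  have h1 : IsDomain (CRing lam a) := by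
    obtain ⟨m, rfl⟩ : ∃ m, n = m + 1 := ⟨n - 1, by omega⟩
    exact isDomain_CRing lam a hl0 hinj
  refine ⟨h1, Pool.Agent.Run7.h363.BD.smooth_of_crit (by omega) σ a (fun k => (hc k).le)
    hcrit' (lt_of_lt_of_le ?_ h), ?_,
    Pool.Agent.Run7.h363.CV.exists_tori hn hinj hc hcrit' h⟩
  · exact lt_of_lt_of_le (by linarith) (le_self_pow₀ (by linarith : 1 ≤ bound r) (by omega))
  · intro L _ _ _ i
    exact symb_mem_unramified (algebraMap (CRing lam a) L) hlam ha i

theorem rat_crit.{v} (hn : 1 ≤ n) {r : Fin (n + 1) → ℕ} {m : ℤ}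
    {b : ∀ k, Fin (r k + 1) → ℤ} (hb : ∀ k, Function.Injective (b k)) (σ : ℚ →+* ℂ)
    (c : Fin (n + 1) → ℝ) (hc : ∀ k, 0 < c k)
    (hcrit : ∀ k (ξ : ℂ), (derivative (∏ i, (X - C (b k i : ℂ)))).eval ξ = 0 →
      c k ≤ ‖∏ i, (ξ - (b k i : ℂ))‖)
    (h : bound r ^ (n + 1) ≤ |(m : ℝ)| * ∏ k, c k) :
    GenusManyClasses.{0, v} σ (m : ℚ) fun k i => (b k i : ℚ) := by
  refine criterion.{0, v} hn σ (m : ℚ) _ (isIntegral_algebraMap (R := ℤ) (A := ℚ) (x := m))
    (fun k i => isIntegral_algebraMap (R := ℤ) (A := ℚ) (x := b k i))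
    (fun k i j hij => hb k (by exact_mod_cast hij)) c hc (fun k ξ hξ => ?_) ?_
  · simp only [map_intCast] at hξ ⊢
    exact hcrit k ξ hξ
  · rw [map_intCast, Complex.norm_intCast]
    exact h

/-- Let `n ≥ 1` and `r_0, ..., r_n ≥ 0`.

*Number fields.* Let `K` be a number field, `σ` a complex embedding of `K`, let `λ` and `a_{k,i}`
(`k ≤ n`, `0 ≤ i ≤ r_k`) be algebraic integers of `K`, `a_{k,i} ≠ a_{k,j}` for `i ≠ j`,
`P_k = ∏_i (x - σ a_{k,i})`, and let `c_k > 0` be a lower bound for the absolute values of the critical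
values of `P_k`. If `|σ λ| ∏_k c_k ≥ (48 2^n (n + 1) ∏_k (r_k + 1)^2)^(n + 1)`, then
`GenusManyClasses` holds for the hypersurface `λ ∏_k ∏_i (x_k - a_{k,i}) = 1`.

*Rational integers.* Let `m ≠ 0` and `b_{k,i}` (`k ≤ n`, `0 ≤ i ≤ r_k`) be rational integers,
`b_{k,i} ≠ b_{k,j}` for `i ≠ j`. Suppose that `r_k ≥ 16 (n + 1)` for all `k`, or that
`|m| ∏_k |b_{k,i_k} - b_{k,j_k}| ≥ (8 * 48 2^n (n + 1) ∏_k (r_k + 1)^2)^(n + 1)` for some `i_k`, `j_k`.
Then `GenusManyClasses` holds for the hypersurface `m ∏_k ∏_i (x_k - b_{k,i}) = 1` over `ℚ`. -/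
theorem result.{u, v} (n : ℕ) (hn : 1 ≤ n) (r : Fin (n + 1) → ℕ) :
    (∀ (K : Type u) [Field K] [NumberField K] (σ : K →+* ℂ) (lam : K)
      (a : ∀ k, Fin (r k + 1) → K), IsIntegral ℤ lam → (∀ k i, IsIntegral ℤ (a k i)) →
      (∀ k, Function.Injective (a k)) →
      ∀ c : Fin (n + 1) → ℝ, (∀ k, 0 < c k) →
      (∀ k (ξ : ℂ), (derivative (∏ i, (X - C (σ (a k i))))).eval ξ = 0 →
        c k ≤ ‖∏ i, (ξ - σ (a k i))‖) →
      bound r ^ (n + 1) ≤ ‖σ lam‖ * ∏ k, c k → GenusManyClasses.{u, v} σ lam a) ∧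
    ∀ (m : ℤ) (b : ∀ k, Fin (r k + 1) → ℤ), m ≠ 0 → (∀ k, Function.Injective (b k)) →
      ((∀ k, 16 * (n + 1) ≤ r k) ∨
        ∃ i j : ∀ k, Fin (r k + 1), (8 * bound r) ^ (n + 1) ≤
          |(m : ℝ)| * ∏ k, |(b k (i k) : ℝ) - b k (j k)|) → ∀ σ : ℚ →+* ℂ,
      GenusManyClasses.{0, v} σ (m : ℚ) fun k i => (b k i : ℚ) := by
  refine ⟨fun K _ _ σ lam a hlam ha hinj c hc hcrit h =>
    criterion hn σ lam a hlam ha hinj c hc hcrit h, fun m b hm hb h σ => ?_⟩
  have hm1 : (1 : ℝ) ≤ |(m : ℝ)| := by exact_mod_cast Int.one_le_abs hm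
  rcases h with h | ⟨i, j, h⟩
  · refine rat_crit.{v} hn hb σ (fun k => Pool.Agent.N686.DI.mm (r k + 1))
      (fun k => Pool.Agent.N686.DI.mm_pos _)
      (fun k ξ hξ => Pool.Agent.N686.DI.crit_int (Nat.succ_pos _) (b k) (hb k) hξ) ?_
    have h1 : ∀ k, 48 * 2 ^ n * ((n : ℝ) + 1) * ((r k : ℝ) + 1) ^ (2 * (n + 1)) ≤
        Pool.Agent.N686.DI.mm (r k + 1) := by
      intro k
      have h2 := Pool.Agent.Run7.h363.CV.mm_growth (t := r k + 1) hn (by
        have := h k
        omega)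
      push_cast at h2
      exact h2
    have h2 : bound r ^ (n + 1) = ∏ k, (48 * 2 ^ n * ((n : ℝ) + 1) *
        ((r k : ℝ) + 1) ^ (2 * (n + 1))) := by
      rw [Finset.prod_mul_distrib, Finset.prod_const, Finset.card_univ, Fintype.card_fin,
        Finset.prod_pow]
      unfold bound
      rw [mul_pow, ← pow_mul]
    rw [h2]
    have h3 : ∏ k, (48 * 2 ^ n * ((n : ℝ) + 1) * ((r k : ℝ) + 1) ^ (2 * (n + 1))) ≤
        ∏ k, Pool.Agent.N686.DI.mm (r k + 1) :=
      Finset.prod_le_prod (fun k _ => by positivity) fun k _ => h1 k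
    refine h3.trans (le_mul_of_one_le_left ?_ hm1)
    exact Finset.prod_nonneg fun k _ => (Pool.Agent.N686.DI.mm_pos _).le
  · have hb48 : (48 : ℝ) ≤ bound r := Pool.Agent.Run7.h363.CV.Cn_ge n r
    have hpos : 0 < ∏ k, |(b k (i k) : ℝ) - b k (j k)| := by
      have h1 : 0 < (8 * bound r) ^ (n + 1) := pow_pos (by linarith) _
      by_contra hcon
      have h2 : |(m : ℝ)| * ∏ k, |(b k (i k) : ℝ) - b k (j k)| ≤ 0 :=
        mul_nonpos_of_nonneg_of_nonpos (by linarith) (not_lt.1 hcon)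
      linarith
    have hk : ∀ k, 0 < |(b k (i k) : ℝ) - b k (j k)| := fun k =>
      lt_of_le_of_ne (abs_nonneg _) (Ne.symm (Finset.prod_ne_zero_iff.1 hpos.ne' k
        (Finset.mem_univ k)))
    refine rat_crit.{v} hn hb σ (fun k => |(b k (i k) : ℝ) - b k (j k)| / 8)
      (fun k => by
        have := hk k
        positivity) (fun k ξ hξ => ?_) ?_
    · have h1 := Pool.Agent.N686.DI.crit_int_abs (b k) (hb k) hξ (i k) (j k)
      push_cast at h1
      exact h1
    · rw [Finset.prod_div_distrib, Finset.prod_const, Finset.card_univ, Fintype.card_fin,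
        ← mul_div_assoc, le_div_iff₀ (by positivity), ← mul_pow, mul_comm (bound r)]
      exact h

end Pool.Agent.Results.MP_4a177b_nt.CriticalValues
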