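import Pool.Agent.Run7.h954.MX.FReg
import Pool.Agent.Run7.h954.MX.Dom
import Pool.Agent.Run7.h954.FP.Fin
set_option autoImplicit false

/-!
Beilinson's conjecture for `K_j^{(j)}`: on the fibrations
`W(z) = λ g(x) ∏_k ∏_i L_{k,i}(x) ^ (w_{k,i} + 1)` over the affine space, where the nonlinear
polynomials `L_{k,0}, ..., L_{k,r_k}` of the `k`-th group have the leading forms `G_k^a` (with
respect to any weights of the coordinates), there are unramified symbols
`{z_0, ..., z_s, u_{k_0,i_0}, ..., u_{k_n,i_n}}`, `k_0 < ... < k_n`, `1 ≤ i_j ≤ r_{k_j}`, whose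
regulators on as many tori are asymptotic to a diagonal matrix, for large `λ`.
-/

namespace Pool.Agent.Results.MP_4a177b_nt.FibrationsLeadingForms

open Pool.Agent.TH826.MK (KQ Unramified Torus)

open Pool.Agent.N65.TL (LP Interior Tame zmat bdir det_zmat exists_vertex)

open Pool.Agent.Run7.h954.MX

open Pool.Agent.Run7.h954.FP (det_rat)

/-- The symbols `s_t` in `K_{s+n+2}^M ⊗ ℚ` of the coordinate ring of `X_λ` have unramified images in
the Milnor K-theory of all fields `L` with a homomorphism from the coordinate ring to `L`. -/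
def UnramifiedSymbols.{u, v} {K : Type u} [Field K] {s n q : ℕ} (W : LP K (s + 1))
    (D : Data K (n + 1) q) (g : MvPolynomial (Fin (n + 1)) K)
    (w : (Σ k, Fin (D.r k + 1)) → ℕ) (lam : K) : Prop :=
  ∀ (L : Type v) [Field L] (f : D.FibRing W g w lam →+* L) (t : D.Idx),
    KQ.map _ f (D.fsym W g w lam t) ∈ Unramified L _

/-- The matrix of the regulators of the symbols `s_{t'}` on the tori `Γ_t`. -/
noncomputable def regMat {K : Type*} [Field K] {s n q : ℕ} {W : LP K (s + 1)}
    {D : Data K (n + 1) q} {g : MvPolynomial (Fin (n + 1)) K}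
    {w : (Σ k, Fin (D.r k + 1)) → ℕ} {lam : K}
    (Γ : D.Idx → Torus (D.FibRing W g w lam) (s + (n + 1))) : Matrix D.Idx D.Idx ℝ :=
  Matrix.of fun t t' => (Γ t).reg (D.fsym W g w lam t')

open scoped Classical in
/-- The diagonal matrix with the entries `(2 π)^(s + n + 1) ρ ∏_j a_{k_j,0}` at
`t = ((k_0, i_0), ..., (k_n, i_n))`. -/
noncomputable def limMat {K : Type*} [Field K] {n q : ℕ} (D : Data K (n + 1) q) (s : ℕ) (ρ : ℚ) :
    Matrix D.Idx D.Idx ℝ :=
  Matrix.diagonal fun t => (2 * Real.pi) ^ (s + (n + 1)) * (ρ * ∏ j, (D.a (t.1 j).1 0 : ℝ))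

open scoped Classical in
/-- There are tori `Γ_t` of dimension `s + n + 1` in the complex points (over `σ`) of `X_λ`, such
that the matrix of the regulators of the `s_{t'}` on the `Γ_t`, divided by `log |σ λ|`, differs in
all entries by at most `ε` from the diagonal matrix with the entries
`(2 π)^(s + n + 1) ρ ∏_j a_{k_j,0}`, and its determinant does not vanish. -/
def DiagonalRegulators {K : Type*} [Field K] {s n q : ℕ} (W : LP K (s + 1))
    (D : Data K (n + 1) q) (g : MvPolynomial (Fin (n + 1)) K)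
    (w : (Σ k, Fin (D.r k + 1)) → ℕ) (σ : K →+* ℂ) (lam : K) (ρ : ℚ) (ε : ℝ) : Prop :=
  ∃ Γ : D.Idx → Torus (D.FibRing W g w lam) (s + (n + 1)),
    (∀ t θ (x : K), (Γ t).e θ (D.fcst W g w lam x) = σ x) ∧
    (∀ t t', |regMat Γ t t' / Real.log ‖σ lam‖ - limMat D s ρ t t'| ≤ ε) ∧
    (regMat Γ).det ≠ 0

/-- Let `s, n ≥ 0`, let `K` be a number field, and let `W = ∑_m w_m z^m` be a Laurent polynomial in
`z_0, ..., z_s` over `K` such that

* the origin is an interior point of the Newton polytope (`Interior`: for every functional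
  `a ∈ ℤ^{s+1}`, `a ≠ 0`, there is a monomial `z^m` of `W` with `a · m > 0`), and
* `W Q = ∏_j G_j` for a Laurent polynomial `Q ≠ 0` with integral coefficients and polynomials
  `G_j = ∑_i ε_{j,i} z^{m_{j,i}}` of simplex type (`Tame`): the `ε_{j,i}` are roots of unity, and
  for every `j` the exponents `m_{j,i}` are affinely independent

(for example `z_0 + 1/z_0`, `z_0 + ... + z_s + 1/(z_0 ... z_s)`, `∏_i (1 + z_i)² / z_i`).
Give the coordinates `x_0, ..., x_n` of the affine space any positive integral weights. Let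
`G_0, ..., G_{q-1}` be weighted homogeneous polynomials with integral coefficients, any `n + 1` of
which (with different indices) have no common zero except for the origin, also modulo all primes;
that is, powers of the `x_j` are linear combinations of them whose coefficients are polynomials with
integral coefficients (of the right weights). For example `x`, `y`, `x + y`, `x² + x y + y²` with the
weights `1, 1`, or `x` and `y² - x³` with the weights `2, 3`. For each `k` let
`L_{k,0}, ..., L_{k,r_k}` be polynomials with integral coefficients, such that `L_{k,i}` is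
`G_k ^ a_{k,i}` plus terms of smaller weight, `a_{k,i} ≥ 1` (`Data.Adm`). Let `g` be a polynomial
with integral coefficients, and let `w_{k,i} ≥ 0` be integers. For `λ` in `K` let `X_λ`, of
dimension `s + n + 1`, be the open part `∏_k ∏_i L_{k,i}(x) ≠ 0` of the variety
`W(z) = λ g(x) ∏_k ∏_i L_{k,i}(x) ^ (w_{k,i} + 1)`, `z_i ≠ 0`; its coordinate ring is
`D.FibRing W g w λ`. On it there are the symbols
`s_t = {z_0, ..., z_s, u_{k_0,i_0}, ..., u_{k_n,i_n}}`,
`u_{k,i} = L_{k,i}^{a_{k,0}} / L_{k,0}^{a_{k,i}}`, for all `k_0 < ... < k_n`, `1 ≤ i_j ≤ r_{k_j}`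
(`D.fsym W g w λ t` for the index `t` in `D.Idx`; the index `i ≥ 1` is the successor of an element of
`Fin r_k`).

* For all integral `λ` the symbols `s_t` in `K_{s+n+2}^M ⊗ ℚ` of the coordinate ring of `X_λ` have
  unramified images in the Milnor K-theory of all fields `L` with a homomorphism from the coordinate
  ring to `L`, for example the function fields of the components of `X_λ` (`UnramifiedSymbols`).

* There is a rational number `ρ ≠ 0` (the same for all embeddings `σ`) with the following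
  property. Let `σ` be an embedding of `K` such that for every index `t` the hypersurfaces
  `L_{k_j,i_j} = 0`, `0 ≤ j ≤ n`, intersect transversally at a complex point (over `σ`) at which the
  other polynomials and `g` do not vanish (`Data.ZerosG`). Then for all `ε > 0` and all `λ` in `K`
  with `|σ λ| ≥ C₀(σ, ε)` there are tori `Γ_t` of dimension `s + n + 1` in the complex points (over
  `σ`) of `X_λ`, such that the regulator of `s_{t'}` on `Γ_t`, divided by `log |σ λ|`, differs by at
  most `ε` from `(2 π)^(s + n + 1) ρ ∏_j a_{k_j,0}` for `t = t'` and from `0` for `t ≠ t'`, and the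
  determinant of the matrix of the regulators does not vanish (`DiagonalRegulators`). -/
theorem result.{u, v} (s n q : ℕ) (K : Type u) [Field K] [NumberField K] (W : LP K (s + 1))
    (hWi : Interior W) (hWt : Tame W) (D : Data K (n + 1) q) (hD : D.Adm)
    (g : MvPolynomial (Fin (n + 1)) K) (hg : ∀ d, IsIntegral ℤ (g.coeff d))
    (w : (Σ k, Fin (D.r k + 1)) → ℕ) :
    (∀ lam : K, IsIntegral ℤ lam → UnramifiedSymbols.{u, v} W D g w lam) ∧
    ∃ ρ : ℚ, ρ ≠ 0 ∧ ∀ σ : K →+* ℂ, D.ZerosG g σ → ∀ ε : ℝ, 0 < ε → ∃ C₀ : ℝ,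
      ∀ lam : K, C₀ ≤ ‖σ lam‖ → DiagonalRegulators W D g w σ lam ρ ε := by
  refine ⟨fun lam hlam L _ f t => D.funram hD hWi hWt hg w hlam f t, ?_⟩
  classical
  obtain ⟨al, v, hv, hpos, hmax⟩ := exists_vertex hWi
  obtain ⟨i0, hi0⟩ : ∃ i0, v i0 ≠ 0 := by
    by_contra hcon
    push Not at hcon
    have h1 : Pool.Agent.N65.TL.dot al v = 0 :=
      Finset.sum_eq_zero fun i _ => by rw [hcon i, mul_zero]
    omega
  obtain ⟨r0, hr0⟩ := det_rat (M := zmat al v i0) fun i j => by
    unfold zmat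
    rw [Matrix.of_apply]
    refine Fin.cases ?_ (fun l => ?_) j
    · exact ⟨(al i : ℚ) / Pool.Agent.N65.TL.dot al v, by simp⟩
    · exact ⟨(bdir v i0 l i : ℚ), by simp⟩
  have hr00 : r0 ≠ 0 := by
    rintro rfl
    rw [Rat.cast_zero] at hr0
    exact det_zmat hpos hi0 hr0
  have hk10 : 0 < (Pool.Agent.N65.TL.dot al v).toNat := by omega
  have hk1 : ((Pool.Agent.N65.TL.dot al v).toNat : ℚ) ≠ 0 := by exact_mod_cast hk10.ne'
  have hq0 : r0 * (-((Pool.Agent.N65.TL.dot al v).toNat : ℚ)) ^ (n + 1) ≠ 0 :=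
    mul_ne_zero hr00 (pow_ne_zero _ (neg_ne_zero.2 hk1))
  refine ⟨r0 * (-((Pool.Agent.N65.TL.dot al v).toNat : ℚ)) ^ (n + 1), hq0,
    fun σ hz ε hε => ?_⟩
  have hpi := Real.pi_pos
  have hq : ∀ t : D.Idx, (2 * Real.pi) ^ (s + (n + 1)) *
      (((r0 * (-((Pool.Agent.N65.TL.dot al v).toNat : ℚ)) ^ (n + 1) : ℚ) : ℝ) *
        ∏ j, (D.a (t.1 j).1 0 : ℝ)) ≠ 0 := by
    intro t
    refine mul_ne_zero (pow_ne_zero _ (by positivity)) (mul_ne_zero (by exact_mod_cast hq0)
      (Finset.prod_ne_zero_iff.2 fun j _ => ?_))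
    exact_mod_cast (hD.apos _ _).ne'
  obtain ⟨ε1, hε1, hdet⟩ := exists_det' hq
  obtain ⟨C₀, hC⟩ := exists_qtori σ hv hpos hmax i0 (D.Phi0 g w) D.bu
    (fun (t : D.Idx) j => t.1 j) (fun t j => -((w (nd t j) : ℝ) + 1))
    (fun t y j => -(((Pool.Agent.N65.TL.dot al v).toNat : ℝ) * pm t y j))
    (fun t => baseTorus D σ g hz w hk10 t) (lt_min hε hε1)
  refine ⟨max C₀ 2, fun lam hlam => ?_⟩
  obtain ⟨Γ, h1, h2⟩ : ∃ Γ : D.Idx → Torus (D.FibRing W g w lam) (s + (n + 1)),
      (∀ t θ (x : K), (Γ t).e θ (D.fcst W g w lam x) = σ x) ∧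
      ∀ t t', |(Γ t).reg (D.fsym W g w lam t') / Real.log ‖σ lam‖ -
        (2 * Real.pi) ^ (s + (n + 1)) * ((zmat al v i0).det * (Matrix.of fun k l =>
          -(((Pool.Agent.N65.TL.dot al v).toNat : ℝ) * pm t (t'.1 k) l)).det)| ≤ min ε ε1 :=
    hC lam ((le_max_left _ _).trans hlam)
  have hmat : ∀ t t' : D.Idx, (zmat al v i0).det * (Matrix.of fun k l =>
      -(((Pool.Agent.N65.TL.dot al v).toNat : ℝ) * pm t (t'.1 k) l)).det =
      if t = t' then ((r0 * (-((Pool.Agent.N65.TL.dot al v).toNat : ℚ)) ^ (n + 1) : ℚ) : ℝ) *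
        ∏ j, (D.a (t.1 j).1 0 : ℝ) else 0 := by
    intro t t'
    have e1 : (Matrix.of fun k l =>
        -(((Pool.Agent.N65.TL.dot al v).toNat : ℝ) * pm t (t'.1 k) l)) =
        (-((Pool.Agent.N65.TL.dot al v).toNat : ℝ)) • (Matrix.of fun k l => pm t (t'.1 k) l) := by
      ext k l
      rw [Matrix.smul_apply, Matrix.of_apply, Matrix.of_apply, smul_eq_mul, neg_mul]
    rw [e1, Matrix.det_smul, det_pm, Fintype.card_fin, hr0]
    by_cases h : t = t'
    · rw [if_pos h, if_pos h]
      push_cast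
      ring
    · rw [if_neg h, if_neg h, mul_zero, mul_zero]
  have h2' : ∀ t t', |(Γ t).reg (D.fsym W g w lam t') / Real.log ‖σ lam‖ -
      (if t = t' then (2 * Real.pi) ^ (s + (n + 1)) *
        (((r0 * (-((Pool.Agent.N65.TL.dot al v).toNat : ℚ)) ^ (n + 1) : ℚ) : ℝ) *
          ∏ j, (D.a (t.1 j).1 0 : ℝ)) else 0)| ≤ min ε ε1 := by
    intro t t'
    have h3 := h2 t t'
    rw [hmat, mul_ite, mul_zero] at h3
    exact h3
  have hτ : Real.log ‖σ lam‖ ≠ 0 := by
    have h3 : (2 : ℝ) ≤ ‖σ lam‖ := (le_max_right _ _).trans hlam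
    exact (Real.log_pos (by linarith)).ne'
  have hlim : ∀ t t', limMat D s (r0 * (-((Pool.Agent.N65.TL.dot al v).toNat : ℚ)) ^ (n + 1)) t t' =
      (if t = t' then (2 * Real.pi) ^ (s + (n + 1)) *
        (((r0 * (-((Pool.Agent.N65.TL.dot al v).toNat : ℚ)) ^ (n + 1) : ℚ) : ℝ) *
          ∏ j, (D.a (t.1 j).1 0 : ℝ)) else 0) := by
    intro t t'
    unfold limMat
    by_cases h : t = t'
    · subst h
      rw [Matrix.diagonal_apply_eq, if_pos rfl]
    · rw [Matrix.diagonal_apply_ne _ h, if_neg h]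
  refine ⟨Γ, h1, fun t t' => ?_, ?_⟩
  · rw [hlim]
    exact (h2' t t').trans (min_le_left _ _)
  · have h4 := hdet (regMat Γ) _ hτ fun t t' => (h2' t t').trans (min_le_right _ _)
    generalize regMat Γ = M at h4 ⊢
    convert h4

end Pool.Agent.Results.MP_4a177b_nt.FibrationsLeadingForms
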