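import Pool.Agent.Run7.h954.FP.Dom
set_option autoImplicit false

/-!
Beilinson's conjecture on regulators in weight `dim X + 1`, for `i = dim X`: on the hypersurfaces
`λ ∏_k ∏_{i ≤ r_k} L_{k,i}(P_k) = 1` in products of `n + 1` affine plane curves of arbitrary genus,
with arbitrary functions `L_{k,i}`, there are `∏_k r_k` unramified classes in Milnor K-theory whose
regulators on `∏_k r_k` tori are asymptotic to a multiple of the identity matrix.
-/

namespace Pool.Agent.Results.MP_4a177b_nt.HypersurfacesInProductsOfCurves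

open Pool.Agent.TH826.MK (KQ Unramified Torus)

open Pool.Agent.Run7.h954.FP

open scoped Classical in
/-- Let `K` be a number field and `n ≥ 0`. Let `C_0, ..., C_n` be the affine plane curves
`H_k(x, w) = 0`, where `H_k = w^(n_k) + ε x^(m_k) + ...` has integral coefficients, `n_k, m_k ≥ 1`,
`ε` is a root of unity, and all other terms `x^i w^j` have weight `n_k i + m_k j < n_k m_k` (for
example lines `w = x`, elliptic curves `w² = x³ + a x + b`, hyperelliptic curves `w² = x^m + ...`, or
`w^d + x^d + (terms of degree < d) = 0`). For each `k` let `L_{k,0}, ..., L_{k,r_k}` be functions on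
`C_k`, given by polynomials in `x` and `w` with integral coefficients, whose leading terms are unique,
are roots of unity times monomials, and have the weights `d_{k,i} > 0` (`Data.Adm`). For `λ` in `K`
let `X_λ`, of dimension `n`, be the hypersurface `λ ∏_k ∏_i L_{k,i}(P_k) = 1` in
`C_0 × ... × C_n ∋ (P_0, ..., P_n)`; its coordinate ring is `D.XRing λ`. On it there are the
`∏_k r_k` symbols `s_T = {u_{0,T_0}, ..., u_{n,T_n}}`,
`u_{k,i} = L_{k,i}^{d_{k,0}} / L_{k,0}^{d_{k,i}}`, `1 ≤ i ≤ r_k` (`D.sym λ T`; the index `i ≥ 1` is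
the successor of an element of `Fin r_k`).

* For all integral `λ` the symbols `s_T` in `K_{n+1}^M ⊗ ℚ` of the coordinate ring of `X_λ` have
  unramified images in the Milnor K-theory of all fields `L` with a homomorphism from the coordinate
  ring to `L` (for example the function fields of the components of `X_λ`).

* Let `σ` be an embedding of `K` such that each `L_{k,i}`, `i ≥ 1`, has a transversal zero in the
  complex points (over `σ`) of `C_k` which is not a zero of the other `L_{k,j}` (`Data.Zeros`). Then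
  for all `ε > 0` and all `λ` in `K` with `|σ λ| ≥ C₀(σ, ε)` there are tori `Γ_T` of dimension `n` in
  the complex points (over `σ`) of `X_λ`, such that the regulator of `s_{T'}` on `Γ_T`, divided by
  `log |σ λ|`, differs by at most `ε` from `- (2 π)^n ∏_k d_{k,0}` for `T = T'` and from `0` for
  `T ≠ T'`, and the determinant of the matrix of the regulators does not vanish. -/
theorem result.{u, v} (n : ℕ) (K : Type u) [Field K] [NumberField K] (D : Data K (n + 1))
    (hD : D.Adm) :
    (∀ lam : K, IsIntegral ℤ lam → ∀ (L : Type v) [Field L] (f : D.XRing lam →+* L)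
      (T : ∀ k, Fin (D.r k)), KQ.map _ f (D.sym lam T) ∈ Unramified L _) ∧
    ∀ σ : K →+* ℂ, D.Zeros σ → ∀ ε : ℝ, 0 < ε → ∃ C₀ : ℝ, ∀ lam : K, C₀ ≤ ‖σ lam‖ →
      ∃ Γ : (∀ k, Fin (D.r k)) → Torus (D.XRing lam) n,
        (∀ T θ (x : K), (Γ T).e θ (D.xcst lam x) = σ x) ∧
        (∀ T T', |(Γ T).reg (D.sym lam T') / Real.log ‖σ lam‖ -
          (if T = T' then -((2 * Real.pi) ^ n * ∏ k, (D.d k 0 : ℝ)) else 0)| ≤ ε) ∧
        (Matrix.of fun T T' : (∀ k, Fin (D.r k)) => (Γ T).reg (D.sym lam T')).det ≠ 0 := by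
  refine ⟨fun lam hlam L _ f T => D.unram hD hlam f T, fun σ hz ε hε => ?_⟩
  have hd : ∀ k, (D.d k 0 : ℝ) ≠ 0 := by
    intro k
    obtain ⟨a, b, h1, h2⟩ := hD.lead k 0
    have h3 := h2.1
    rw [h1] at h3
    exact_mod_cast h3.ne'
  have hq : -((2 * Real.pi) ^ n * ∏ k, (D.d k 0 : ℝ)) ≠ 0 :=
    neg_ne_zero.2 (mul_ne_zero (pow_ne_zero _ (by have := Real.pi_pos; positivity))
      (Finset.prod_ne_zero_iff.2 fun k _ => hd k))
  obtain ⟨ε1, hε1, hdet⟩ := exists_det (ι := ∀ k, Fin (D.r k)) hq
  obtain ⟨C₀, hC⟩ := exists_tori D σ hz (lt_min hε hε1)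
  refine ⟨max C₀ 2, fun lam hlam => ?_⟩
  obtain ⟨Γ, h1, h2⟩ := hC lam ((le_max_left _ _).trans hlam)
  have h2' : ∀ T T', |(Γ T).reg (D.sym lam T') / Real.log ‖σ lam‖ -
      (if T = T' then -((2 * Real.pi) ^ n * ∏ k, (D.d k 0 : ℝ)) else 0)| ≤ min ε ε1 := by
    intro T T'
    have h3 := h2 T T'
    have e1 : (2 * Real.pi) ^ n * (if T = T' then -∏ k, (D.d k 0 : ℝ) else 0) =
        if T = T' then -((2 * Real.pi) ^ n * ∏ k, (D.d k 0 : ℝ)) else 0 := by
      split_ifs <;> ring
    rwa [e1] at h3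
  have hτ : Real.log ‖σ lam‖ ≠ 0 := by
    have h3 : (2 : ℝ) ≤ ‖σ lam‖ := (le_max_right _ _).trans hlam
    exact (Real.log_pos (by linarith)).ne'
  exact ⟨Γ, h1, fun T T' => (h2' T T').trans (min_le_left _ _), hdet _ _ hτ fun T T' =>
    (h2' T T').trans (min_le_right _ _)⟩

end Pool.Agent.Results.MP_4a177b_nt.HypersurfacesInProductsOfCurves
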