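import Pool.Agent.Run7.h184.TC.RegF
import Pool.Agent.Run7.h184.TC.RegG
import Pool.Agent.Run7.h184.TC.Univ

/-!
# Beilinson's conjecture for `K_j^{(j)}`: the totally complex fields suffice

Let `X` be a smooth projective variety over a number field `K` (for instance `K = ℚ`), `j ≥ 2` and
`w = j - 1`.  For a finite extension `F` of `K` we consider the conjecture for `X_F`, regarded as a
variety over `ℚ`.  Notation:

* `D F = K_j(X_F)^{(j)}_ℤ`, and `C F = H_{j-1}(X_F(ℂ), ℚ)^{F_∞ = (-1)^{j-1}}`, Betti homology, with the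
  transfer maps `C F → C F'` (inverse images of cycles) for `F ⊆ F'`.  Both are systems with Galois
  descent (`GaloisModules`), and the pairing `P F (ξ, γ) = (2πi)^{-(j-1)} ⟨reg ξ | γ⟩` satisfies
  `P F' (ξ, γ) = [F' : F] P F (ξ, γ)` (`Pairing`, projection formula).
* `IsRegulator P F R`: `R` is the determinant of `P F` with respect to rational bases of `D F` and `C F`
  (of the same length); it is unique up to a factor in `ℚ^*`.  Part (1) of the conjecture for `X_F` says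
  that there is a regulator `R ≠ 0`, and the left side of (2) is the class of `R`.
* `L(h^w(X_F), s)` is the product of the factors `det(1 - Frob_v Nv^{-s})⁻¹` at the good places, where
  `Frob_v = (frob p)^f` for `v | p` of residue degree `f`, and of the function `rest F s`, the product of
  the Euler factors above the bad places.  About `rest` we only use that it satisfies Artin formalism
  (inductivity of the local factors), and about `frob` purity of weight `w`.
* `Beilinson F`: (1) holds for `X_F`, and (2) holds for `X_F` up to powers: for some `k > 0` the function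
  `L(h^w(X_F), s)^k` has a meromorphic continuation to the connected set `U ∋ 0`, with leading
  coefficient `q R^k` at `s = 0`, `q ∈ ℚ^*`.

Call `F` TOTALLY COMPLEX OF CYCLIC TYPE if `F` has no real embedding and `N / F` is cyclic for a finite
Galois extension `N` of `K` which contains `F`.  Let `r_v(F)` be the number of the real embeddings of `F`
above the real place `v` of `K`.

0. (Universal relations.)  Let `F_i` be finitely many finite extensions of `K` and `a_i` integers with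
   `∑_i a_i r_v(F_i) = 0` for all real places `v` of `K` (for instance one totally complex `F`, or
   `F - r₁(F) ℚ` over `K = ℚ`).  There are `m ≥ 1`, finitely many totally complex fields `Y_j` of cyclic
   type and integers `n_j` such that, for ALL `X` and `j`, a power of the quotient
   `(∏_i L(h^w(X_{F_i}), s)^{a_i})^m / ∏_j L(h^w(X_{Y_j}), s)^{n_j}` is meromorphic on `U`, holomorphic at
   `s = 0`, and its value there is in `ℚ^*` (no hypothesis); and if (1) holds for all `X_F`, a power of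
   the same quotient of regulators is in `ℚ^*`.

Now assume `Beilinson F` for the totally complex fields `F` of cyclic type only.  Then:

1. part (1) holds for ALL finite extensions of `K`, and `Beilinson F` for all totally complex `F`;
2. there are numbers `δ_v ∈ ℂ^*`, one for each real place `v` of `K`, such that for EVERY finite
   extension `F` of `K` for which (a power of) `L(h^w(X_F), s)` has a continuation, its leading
   coefficient at `0` is, up to powers and `ℚ^*`, `R(F) ∏_v δ_v^{r_v(F)}`;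
3. `Beilinson F` for finitely many `F_i` whose vectors `(r_v(F_i))_v` span `ℚ^{v}` implies it for all `F`.

4. Hence, over `ℚ`: `Beilinson F` holds for all number fields `F` if and only if it holds for the totally
   complex fields of cyclic type and for ONE number field with a real embedding (for instance `ℚ`).

The proof.  Modulo the functions with a value in `ℚ^*` at `0` the `L`-function depends, up to powers,
additively on the permutation character of `Gal(N/K)` on `Gal(N/K)/Gal(N/F)`.  So do the regulators: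
choose a rational `Gal(N/K)`-invariant pairing `Q` close to (an average of) `P N`; the operator `A` which
compares them commutes with the group, the regulator over `F` is, up to `ℚ^*`, the determinant of `A` on
the invariants of `Gal(N/F)`, and the traces of the powers of `A` on the invariants are additive.  Modulo
the characters of `G/H`, `H` cyclic without complex conjugations, a multiple of a combination `f` of such
characters vanishes as soon as `f` vanishes at the complex conjugations, after adjoining to `N` square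
roots of suitable elements (`TC/Rel`).
-/

set_option autoImplicit false

namespace Pool.Agent.Results.MP_4a177b_nt.TotallyComplexFieldsSuffice

open NumberField IsDedekindDomain Module
open scoped Classical
open Pool.Agent.R433.MD (Ext)
open Pool.Agent.Run7.h184.TC (GaloisModules Pairing)

/-- `F` is totally complex, and there is a finite Galois extension `N` of `K`, containing `F`, such that
`N / F` is cyclic. -/
def CyclicType (K F : Type) [Field K] [Field F] [Algebra K F] : Prop :=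
  IsEmpty (F →+* ℝ) ∧ ∃ (N : Type) (_ : Field N) (_ : NumberField N) (_ : Algebra K N)
    (_ : Algebra F N) (_ : IsScalarTower K F N), IsGalois K N ∧ IsCyclic Gal(N/F)

/-- The number `r_v(F)` of the embeddings of `F` in `ℝ` that extend `v : K → ℝ`. -/
noncomputable def realAbove {K : Type} [Field K] (F : Type) [Field F] [Algebra K F]
    (v : K →+* ℝ) : ℕ :=
  Nat.card {ρ : F →+* ℝ // ρ.comp (algebraMap K F) = v}

/-- The Euler factors of the `L`-functions of `h^w(X_F)`, for the finite extensions `F` of `K`.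
For a prime ideal `p` of `K` outside `bad`, `frob p` is a matrix over `ℚ` whose characteristic polynomial
is the one of the geometric Frobenius at `p` on `H^w(X)` (for instance its companion matrix); it is pure
of weight `w`.  `rest F s` is the product of the Euler factors of `X_F` at the primes above `bad`; it has
no zero in the half plane of convergence, and it satisfies Artin formalism: if `F_i ⊆ N`, `N / K` is
Galois, and `∑ e_i χ_i = 0` for the permutation characters `χ_i` of `Gal(N/K)` on the embeddings of `F_i`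
in `N`, then `∏ rest(F_i, s)^{e_i} = 1`. -/
structure EulerFactors (K : Type) [Field K] [NumberField K] (w d : ℕ) where
  bad : Set (Ideal (𝓞 K))
  frob : Ideal (𝓞 K) → Matrix (Fin d) (Fin d) ℚ
  pure : ∀ p : Ideal (𝓞 K), p.IsPrime → p ≠ ⊥ → p ∉ bad →
    ∀ α ∈ ((frob p).map (algebraMap ℚ ℂ)).charpoly.roots,
      ‖α‖ = (Ideal.absNorm p : ℝ) ^ ((w : ℝ) / 2)
  rest : ∀ (F : Type) [Field F] [NumberField F] [Algebra K F], ℂ → ℂ
  rest_ne_zero : ∀ (F : Type) [Field F] [NumberField F] [Algebra K F] (s : ℂ),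
    (w : ℝ) / 2 + 1 < s.re → rest F s ≠ 0
  rest_formal : ∀ (N : Type) [Field N] [NumberField N] [Algebra K N] [IsGalois K N] (t : ℕ)
    (F : Fin t → Type) [∀ i, Field (F i)] [∀ i, NumberField (F i)] [∀ i, Algebra K (F i)],
    (∀ i, Nonempty (F i →ₐ[K] N)) → ∀ e : Fin t → ℤ,
    (∀ g : Gal(N/K), ∑ i, e i * (Nat.card {τ : F i →ₐ[K] N // ∀ x, g (τ x) = τ x} : ℤ) = 0) →
    ∀ s : ℂ, (w : ℝ) / 2 + 1 < s.re → ∏ i, rest (F i) s ^ e i = 1

section
variable {K : Type} [Field K] [NumberField K] {w d : ℕ} (X : EulerFactors K w d)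

/-- The Euler factor at a prime `v` of `F`: if the prime `p` of `K` below `v` is not in `bad`, it is
`det(1 - Nv^{-s} (frob p)^f)⁻¹`, where `Nv = Np^f` (so `f` is the residue degree). -/
noncomputable def factor (F : Type) [Field F] [NumberField F] [Algebra K F] (s : ℂ)
    (v : HeightOneSpectrum (𝓞 F)) : ℂ :=
  if v.asIdeal.comap (algebraMap (𝓞 K) (𝓞 F)) ∈ X.bad then 1 else
    (1 - ((Ideal.absNorm v.asIdeal : ℂ) ^ (-s)) •
      ((X.frob (v.asIdeal.comap (algebraMap (𝓞 K) (𝓞 F)))).map (algebraMap ℚ ℂ)) ^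
        Nat.log (Ideal.absNorm (v.asIdeal.comap (algebraMap (𝓞 K) (𝓞 F))))
          (Ideal.absNorm v.asIdeal)).det⁻¹

/-- The function `L(h^w(X_F), s) ^ k`, given by a convergent Euler product for `Re s > w / 2 + 1`, has a
meromorphic continuation to `U`, with leading term `x s ^ n` at `s = 0`. -/
def Continues (U : Set ℂ) (F : Type) [Field F] [NumberField F] [Algebra K F] (k : ℕ) (n : ℤ)
    (x : ℂ) : Prop :=
  ∃ Λ : ℂ → ℂ, MeromorphicOn Λ U ∧
    (∀ s : ℂ, (w : ℝ) / 2 + 1 < s.re →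
      ∃ L : ℂ, HasProd (factor X F s) L ∧ Λ s = (X.rest F s * L) ^ k) ∧
    meromorphicOrderAt Λ 0 = n ∧ meromorphicTrailingCoeffAt Λ 0 = x

/-- `U` is connected and contains the half plane of convergence and `0`. -/
def Region (w : ℕ) (U : Set ℂ) : Prop :=
  IsPreconnected U ∧ (∀ s : ℂ, (w : ℝ) / 2 + 1 < s.re → s ∈ U) ∧ (0 : ℂ) ∈ U

/-- `R` is the determinant of the regulator pairing over `F` with respect to rational bases (of the same
length) of `D F` and `C F`. -/
def IsRegulator {D C : GaloisModules K} (P : Pairing D C) (F : Type) [Field F] [NumberField F]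
    [Algebra K F] (R : ℝ) : Prop :=
  ∃ (n : ℕ) (b : Basis (Fin n) ℚ (D.obj ⟨F⟩)) (c : Basis (Fin n) ℚ (C.obj ⟨F⟩)),
    R = (Matrix.of fun p q => P.val ⟨F⟩ (b p) (c q)).det

/-- Beilinson's conjecture for `X_F`: (1), the regulator is an isomorphism after `⊗ ℝ` (the determinant
`R` is not zero), and (2) up to powers, `L(h^w(X_F), s)^k` continues, with leading coefficient in
`ℚ^* R^k` at `s = 0`. -/
def Beilinson (U : Set ℂ) {D C : GaloisModules K} (P : Pairing D C) (F : Type) [Field F]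
    [NumberField F] [Algebra K F] : Prop :=
  ∃ R : ℝ, R ≠ 0 ∧ IsRegulator P F R ∧ ∃ (k : ℕ) (n : ℤ) (q : ℚ), k ≠ 0 ∧ q ≠ 0 ∧
    Continues X U F k n (q * (R : ℂ) ^ k)

end

section proof

open Pool.Agent.Run7.h184.TC Pool.Agent.R433.MD Pool.Agent.R333.BR
open Pool.Agent.H921R2.TatePole (nm two_le_nm nm_summable)

section
variable {K : Type} [Field K] [NumberField K] {w d : ℕ} (X : EulerFactors K w d)

/-- the bad places -/
def bd : Set (HeightOneSpectrum (𝓞 K)) := {v | v.asIdeal ∈ X.bad}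

/-- the matrices -/
def fr : HeightOneSpectrum (𝓞 K) → Matrix (Fin d) (Fin d) ℚ := fun v => X.frob v.asIdeal

/-- the abscissa -/
noncomputable abbrev ab (w : ℕ) : ℝ := (w : ℝ) / 2 + 1

theorem tau_eq (τ : ℚ →+* ℂ) : τ = algebraMap ℚ ℂ := Subsingleton.elim _ _

theorem bd_of : Bd (bd X) (fr X) (ab w) := fun v hv τ α hα => by
  rw [tau_eq τ] at hα
  have h1 := X.pure v.asIdeal v.isPrime v.ne_bot hv α hα
  rw [h1]
  have h2 : ab w - 1 = (w : ℝ) / 2 := by
    unfold ab
    ring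
  rw [h2]
  exact le_of_eq rfl

theorem np_of (hw : w ≠ 0) : ∀ v ∉ bd X, ∀ n ≠ 0,
    (1 - (((nm v ^ n : ℕ) : ℚ) ^ (-(0 : ℤ))) • (fr X v) ^ n).det ≠ 0 := by
  intro v hv n hn h0
  rw [neg_zero, zpow_zero, one_smul] at h0
  have h1 := congrArg (algebraMap ℚ ℂ) h0
  rw [map_zero, RingHom.map_det, map_sub, map_one, map_pow] at h1
  have h2 := det_one_sub ((fr X v).map (algebraMap ℚ ℂ)) 1 n
  rw [one_smul] at h2
  have h3 : (1 - (algebraMap ℚ ℂ).mapMatrix (fr X v) ^ n).det =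
      (1 - ((fr X v).map (algebraMap ℚ ℂ)) ^ n).det := rfl
  rw [h3, h2] at h1
  obtain ⟨α, hα, h4⟩ := Multiset.mem_map.1 (Multiset.prod_eq_zero_iff.1 h1)
  have h5 := X.pure v.asIdeal v.isPrime v.ne_bot hv α hα
  have h6 : (1 : ℝ) < (Ideal.absNorm v.asIdeal : ℝ) ^ ((w : ℝ) / 2) := by
    have h7 : (1 : ℝ) < (Ideal.absNorm v.asIdeal : ℝ) := by
      have := two_le_nm v
      have h8 : 2 ≤ Ideal.absNorm v.asIdeal := this
      exact_mod_cast (by omega : 1 < Ideal.absNorm v.asIdeal)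
    exact Real.one_lt_rpow h7 (by positivity)
  have h7 : α ^ n = 1 := by
    rw [one_mul] at h4
    exact (sub_eq_zero.1 h4).symm
  have h8 : ‖α‖ ^ n = 1 := by rw [← norm_pow, h7, norm_one]
  rw [h5] at h8
  exact absurd h8 (one_lt_pow₀ h6 hn).ne'

theorem factor_eq (F : Ext K) (τ : ℚ →+* ℂ) (s : ℂ) (v : HeightOneSpectrum (𝓞 F.F)) :
    factor X F.F s v = loc (K := K) (fun v n => (pol (bd X) (fr X) τ v n s)⁻¹) v := by
  have h1 : nm v = nm (und (K := K) v) ^ fdeg (⟨v, rfl⟩ : Fib F.F (und (K := K) v)) :=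
    nm_fib (K := K) ⟨v, rfl⟩
  have h2 : Nat.log (nm (und (K := K) v)) (nm v) =
      fdeg (⟨v, rfl⟩ : Fib F.F (und (K := K) v)) := by
    rw [h1]
    have := two_le_nm (und (K := K) v)
    exact Nat.log_pow (by omega) _
  have h3 : factor X F.F s v = if und (K := K) v ∈ bd X then 1 else
    (1 - (((nm v : ℕ) : ℂ) ^ (-s)) • ((fr X (und (K := K) v)).map (algebraMap ℚ ℂ)) ^
        Nat.log (nm (und (K := K) v)) (nm v)).det⁻¹ := rfl
  rw [h3, h2, loc, pol, ← h1, tau_eq τ]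
  split_ifs with h
  · rw [inv_one]
  · rfl

/-- the remaining factors -/
noncomputable def rs (F : Ext K) : LS ℚ (ab w) := fun _ s =>
  Units.mk0 (X.rest F.F s) (X.rest_ne_zero F.F s s.2)

/-- the `L`-function -/
noncomputable def gF (F : Ext K) : LS ℚ (ab w) := LF (bd_of X) F * rs X F

theorem gF_val (F : Ext K) (τ : ℚ →+* ℂ) (s : HP (ab w)) : ∃ L : ℂ,
    HasProd (factor X F.F s) L ∧ ((gF X F τ s : ℂˣ) : ℂ) = X.rest F.F s * L := by
  refine ⟨_, (LF_hasProd (bd_of X) F τ s).congr_fun fun v => factor_eq X F τ s v, ?_⟩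
  rw [gF, Pi.mul_apply, Pi.mul_apply, Units.val_mul, mul_comm]
  rfl

variable {X} {U : Set ℂ}

theorem cont_iff (h0 : (0 : ℂ) ∈ U) (F : Ext K) (k : ℕ) (n : ℤ) (x : ℂ) :
    Continues X U F.F k n x ↔ ∃ u : ℂˣ, (u : ℂ) = x ∧
      ((gF X F) ^ k, (fun _ => u), fun _ => Multiplicative.ofAdd n) ∈
        Gr ℚ (ab w) (U := U) (m := 0) h0 := by
  constructor
  · rintro ⟨Λ, h1, h2, h3, h4⟩
    have hx : x ≠ 0 := by
      rw [← h4]
      refine (h1 _ h0).meromorphicTrailingCoeffAt_ne_zero ?_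
      rw [h3]
      exact WithTop.coe_ne_top
    refine ⟨Units.mk0 x hx, rfl, fun τ => ⟨Λ, h1, fun s => ?_, h3, h4⟩⟩
    obtain ⟨L, h5, h6⟩ := h2 s s.2
    obtain ⟨L', h5', h6'⟩ := gF_val X F τ s
    change Λ s = (((gF X F) ^ k) τ s : ℂˣ)
    rw [h6, Pi.pow_apply, Pi.pow_apply, Units.val_pow_eq_pow_val, h6', h5.unique h5']
  · rintro ⟨u, rfl, h⟩
    obtain ⟨Λ, h1, h2, h3, h4⟩ := h (algebraMap ℚ ℂ)
    refine ⟨Λ, h1, fun s hs => ?_, h3, h4⟩
    obtain ⟨L', h5', h6'⟩ := gF_val X F (algebraMap ℚ ℂ) ⟨s, hs⟩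
    refine ⟨L', h5', ?_⟩
    have h7 := h2 ⟨s, hs⟩
    change Λ s = (((gF X F) ^ k) (algebraMap ℚ ℂ) ⟨s, hs⟩ : ℂˣ) at h7
    rw [h7, Pi.pow_apply, Pi.pow_apply, Units.val_pow_eq_pow_val, h6']

end

section
variable {K : Type} [Field K] [NumberField K] {D C : GaloisModules K} {P : Pairing D C}

/-- perfectness over all fields -/
def Perf (P : Pairing D C) : Prop := ∀ F : Ext K, ∃ R : ℝ, R ≠ 0 ∧ P.IsReg F R

theorem perf_of (h : ∀ Z : Ext K, CycType K Z.F → ∃ R : ℝ, R ≠ 0 ∧ P.IsReg Z R) : Perf P := by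
  intro F
  obtain ⟨N, hN, hc, ⟨f⟩⟩ := exists_complex F
  obtain ⟨R, hR0, hR⟩ := h N hc
  obtain ⟨r, hr⟩ := P.exists_reg hN hR hR0 f
  exact ⟨r, (P.rel hN hR hR0 (fun _ : Unit => F) (fun _ => f) (fun _ => 0)
    (fun g => by simp) (fun _ => r) fun _ => hr).1 (), hr⟩

theorem ratio_of (h : Perf P) (F : Ext K) {R R' : ℝ} (hR : P.IsReg F R) (hR' : P.IsReg F R') :
    R ≠ 0 ∧ R' ≠ 0 ∧ ∃ q : ℚ, q ≠ 0 ∧ R = q * R' := by
  obtain ⟨N, hN, -, ⟨f⟩⟩ := exists_complex F
  obtain ⟨R0, hR0, hR0'⟩ := h N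
  obtain ⟨h1, q, hq, h2⟩ := P.rel hN hR0' hR0 (fun _ : Bool => F) (fun _ => f)
    (fun x => if x then 1 else -1) (fun g => by simp) (fun x => if x then R else R')
    fun x => by cases x; exacts [hR', hR]
  have h3 : R ≠ 0 := h1 true
  have h4 : R' ≠ 0 := h1 false
  refine ⟨h3, h4, q, hq, ?_⟩
  rw [Fintype.prod_bool] at h2
  have h5 : R * R'⁻¹ = q := by
    rw [← h2]
    simp
  rw [← h5, inv_mul_cancel_right₀ h4]

/-- the chosen regulators -/
noncomputable def RA (h : Perf P) (F : Ext K) : AA ℚ := fun _ =>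
  Units.mk0 (((h F).choose : ℝ) : ℂ) (Complex.ofReal_ne_zero.2 (h F).choose_spec.1)

theorem formal_RA (h : Perf P) : Formal (K := K) fun F => cl (em ℚ).range (RA h F) := by
  intro N _ _ _ _ ι _ Z f e he
  obtain ⟨R0, hR0, hR0'⟩ := h ⟨N⟩
  obtain ⟨h1, q, hq, h2⟩ := P.rel (N := ⟨N⟩) inferInstance hR0' hR0 Z f e he
    (fun i => (h (Z i)).choose) fun i => (h (Z i)).choose_spec.2
  have h3 : ∏ i, RA h (Z i) ^ e i = em ℚ (Units.mk0 q hq) := by
    funext τ
    refine Units.ext ?_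
    rw [Finset.prod_apply, Units.coe_prod]
    have h4 := congrArg (fun x : ℝ => (x : ℂ)) h2
    simp only [Complex.ofReal_prod, Complex.ofReal_zpow] at h4
    have h5 : ((em ℚ (Units.mk0 q hq) τ : ℂˣ) : ℂ) = τ q := rfl
    rw [h5, tau_eq τ]
    have h6 : algebraMap ℚ ℂ q = ((q : ℝ) : ℂ) := by
      rw [eq_ratCast]
      norm_cast
    rw [h6, ← h4]
    refine Finset.prod_congr rfl fun i _ => ?_
    rw [Pi.pow_apply, Units.val_zpow_eq_zpow_val]
    rfl
  have h4 := cl_mem (em ℚ).range (x := ∏ i, RA h (Z i) ^ e i) ⟨_, h3.symm⟩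
  rw [cl_prod] at h4
  simp only [cl_zpow] at h4
  exact h4

variable {w d : ℕ} {X : EulerFactors K w d} {U : Set ℂ}

/-- the embeddings fixed by an automorphism -/
theorem fx_eq_card {N F : Type} [Field N] [NumberField N] [Algebra K N] [IsGalois K N] [Field F]
    [Algebra K F] (f : F →ₐ[K] N) (g : Gal(N/K)) :
    fx f.fieldRange.fixingSubgroup g =
      (Nat.card {τ : F →ₐ[K] N // ∀ x, g (τ x) = τ x} : ℤ) := by
  rw [fx_eq_emb, Pool.Agent.R433.MD.emb]
  congr 1
  let e : F ≃ₐ[K] f.fieldRange := AlgEquiv.ofInjectiveField f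
  refine Nat.card_congr
    { toFun := fun τ => ⟨τ.1.comp (e : F →ₐ[K] f.fieldRange), fun x => τ.2 _⟩
      invFun := fun τ => ⟨τ.1.comp (e.symm : f.fieldRange →ₐ[K] F), fun x => τ.2 _⟩
      left_inv := fun τ => Subtype.ext (AlgHom.ext fun x => ?_)
      right_inv := fun τ => Subtype.ext (AlgHom.ext fun x => ?_) }
  · change τ.1 (e (e.symm x)) = τ.1 x
    rw [AlgEquiv.apply_symm_apply]
  · change τ.1 (e.symm (e x)) = τ.1 x
    rw [AlgEquiv.symm_apply_apply]

theorem formal_rs (h0 : (0 : ℂ) ∈ U) :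
    Formal (K := K) fun F => cl (M0 ℚ (ab w) (U := U) (m := 0) h0) (rs X F) := by
  intro N _ _ _ _ ι _ Z f e he
  let ε := Fintype.equivFin ι
  have h1 : ∏ i, rs X (Z i) ^ e i = 1 := by
    funext τ s
    refine Units.ext ?_
    simp only [Finset.prod_apply, Pi.pow_apply, Units.coe_prod, Units.val_zpow_eq_zpow_val]
    have h2 := X.rest_formal N (Fintype.card ι) (fun j => (Z (ε.symm j)).F)
      (fun j => ⟨f (ε.symm j)⟩) (fun j => e (ε.symm j)) (fun g => by
        have h3 := he g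
        rw [← Equiv.sum_comp ε.symm] at h3
        rw [← h3]
        refine Finset.sum_congr rfl fun j _ => ?_
        rw [fx_eq_card]) s s.2
    rw [← Equiv.prod_comp ε.symm]
    exact h2
  have h4 := cl_mem (M0 ℚ (ab w) (U := U) (m := 0) h0) (x := ∏ i, rs X (Z i) ^ e i) (by
    rw [h1]
    exact Subgroup.one_mem _)
  rw [cl_prod] at h4
  simp only [cl_zpow] at h4
  exact h4

theorem formal_gF (hw : w ≠ 0) (h0 : (0 : ℂ) ∈ U) :
    Formal (K := K) fun F => cl (M0 ℚ (ab w) (U := U) (m := 0) h0) (gF X F) := by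
  have key : ∀ (m : ℂ) (hm : m ∈ U), m = 0 →
      Formal (K := K) (fun F => cl (M0 ℚ (ab w) (U := U) (m := m) hm) (LF (bd_of X) F)) →
      Formal (K := K) (fun F => cl (M0 ℚ (ab w) (U := U) (m := 0) h0) (LF (bd_of X) F)) := by
    rintro m hm rfl h
    exact h
  have h1 : Formal (K := K) fun F =>
      cl (M0 ℚ (ab w) (U := U) (m := 0) h0) (LF (bd_of X) F) :=
    key _ (by rw [Int.cast_zero]; exact h0) Int.cast_zero
      (formal_L (bd_of X) (m := 0) (by rw [Int.cast_zero]; exact h0) (np_of X hw))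
  have h2 := h1.add (formal_rs (X := X) h0)
  have h3 : (fun F : Ext K => cl (M0 ℚ (ab w) (U := U) (m := 0) h0) (gF X F)) =
      fun F => cl (M0 ℚ (ab w) (U := U) (m := 0) h0) (LF (bd_of X) F) +
        cl (M0 ℚ (ab w) (U := U) (m := 0) h0) (rs X F) := by
    funext F
    rw [gF, cl_mul]
  rw [h3]
  exact h2

/-- the class of the defect -/
noncomputable def Ψ (X : EulerFactors K w d) (h0 : (0 : ℂ) ∈ U) (h : Perf P) (F : Ext K) :
    VQ (M1 (E := ℚ) (b := ab w) (U := U) (m := 0) h0) :=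
  cl (M1 (E := ℚ) (b := ab w) (U := U) (m := 0) h0) (gF X F, RA h F)

theorem formal_Ψ (hw : w ≠ 0) (h0 : (0 : ℂ) ∈ U) (h : Perf P) :
    Formal (K := K) (Ψ X h0 h) :=
  formal_M1 h0 (formal_gF hw h0) (formal_RA h)

theorem beil_iff (h0 : (0 : ℂ) ∈ U) (h : Perf P) (F : Ext K) :
    Beilinson X U P F.F ↔ Ψ X h0 h F = 0 := by
  rw [Ψ, cl_M1]
  constructor
  · rintro ⟨R, hR0, hR, k, n, q, hk, hq, hc⟩
    obtain ⟨u, hu, h1⟩ := (cont_iff h0 F k n _).1 hc
    obtain ⟨-, -, q', hq', h2⟩ := ratio_of h F hR (h F).choose_spec.2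
    refine ⟨k, Units.mk0 (q * q' ^ k) (mul_ne_zero hq (pow_ne_zero _ hq')),
      fun _ => Multiplicative.ofAdd n, hk, ?_⟩
    have h3 : em ℚ (Units.mk0 (q * q' ^ k) (mul_ne_zero hq (pow_ne_zero _ hq'))) * RA h F ^ k =
        fun _ => u := by
      funext τ
      refine Units.ext ?_
      have h5 : ((em ℚ (Units.mk0 (q * q' ^ k) (mul_ne_zero hq (pow_ne_zero _ hq'))) τ : ℂˣ) : ℂ) =
          τ (q * q' ^ k) := rfl
      rw [hu, Pi.mul_apply, Units.val_mul, h5, map_mul, map_pow, eq_ratCast, eq_ratCast,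
        Pi.pow_apply, Units.val_pow_eq_pow_val, mul_assoc, ← mul_pow]
      have h6 : ((q' : ℂ) * ((RA h F τ : ℂˣ) : ℂ)) = (R : ℂ) := by
        rw [h2]
        push_cast
        rfl
      rw [h6]
    rw [h3]
    exact h1
  · rintro ⟨k, e, n, hk, h1⟩
    refine ⟨(h F).choose, (h F).choose_spec.1, (h F).choose_spec.2, k,
      (n (algebraMap ℚ ℂ)).toAdd, e, hk, e.ne_zero, ?_⟩
    refine (cont_iff h0 F k _ _).2 ⟨(em ℚ e * RA h F ^ k) (algebraMap ℚ ℂ), ?_, ?_⟩
    · rw [Pi.mul_apply, Units.val_mul, Pi.pow_apply, Units.val_pow_eq_pow_val]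
      have h5 : ((em ℚ e (algebraMap ℚ ℂ) : ℂˣ) : ℂ) = algebraMap ℚ ℂ e := rfl
      rw [h5, eq_ratCast]
      rfl
    · have h6 : (fun _ : ℚ →+* ℂ => (em ℚ e * RA h F ^ k) (algebraMap ℚ ℂ)) =
          em ℚ e * RA h F ^ k := funext fun τ => by rw [tau_eq τ]
      have h7 : (fun _ : ℚ →+* ℂ => Multiplicative.ofAdd (n (algebraMap ℚ ℂ)).toAdd) = n :=
        funext fun τ => by rw [tau_eq τ]; rfl
      rw [h6, h7]
      exact h1

theorem hypΨ (h0 : (0 : ℂ) ∈ U) (h : Perf P)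
    (hyp : ∀ (F : Type) [Field F] [NumberField F] [Algebra K F], CyclicType K F →
      Beilinson X U P F) (Z : Ext K) (hZ : CycType K Z.F) : Ψ X h0 h Z = 0 :=
  (beil_iff h0 h Z).1 (hyp Z.F ⟨hZ.complex, hZ.cyclic⟩)

theorem perf_hyp (hyp : ∀ (F : Type) [Field F] [NumberField F] [Algebra K F], CyclicType K F →
      Beilinson X U P F) : Perf P :=
  perf_of fun Z hZ => by
    obtain ⟨R, hR0, hR, -⟩ := hyp Z.F ⟨hZ.complex, hZ.cyclic⟩
    exact ⟨R, hR0, hR⟩

/-- a regulator as an element of the group -/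
noncomputable def ra {R : ℝ} (hR : R ≠ 0) : AA ℚ := fun _ =>
  Units.mk0 (R : ℂ) (Complex.ofReal_ne_zero.2 hR)

theorem cl_ra (h : Perf P) (F : Ext K) {R : ℝ} (hR : P.IsReg F R) (hR0 : R ≠ 0) :
    cl (em ℚ).range (ra hR0) = cl (em ℚ).range (RA h F) := by
  obtain ⟨-, -, q, hq, h1⟩ := ratio_of h F hR (h F).choose_spec.2
  have h2 : ra hR0 = em ℚ (Units.mk0 q hq) * RA h F := by
    funext τ
    refine Units.ext ?_
    have h5 : ((em ℚ (Units.mk0 q hq) τ : ℂˣ) : ℂ) = τ q := rfl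
    rw [Pi.mul_apply, Units.val_mul, h5, eq_ratCast]
    change (R : ℂ) = (q : ℂ) * (((h F).choose : ℝ) : ℂ)
    conv_lhs => rw [h1]
    push_cast
    rfl
  rw [h2, cl_mul, cl_mem (em ℚ).range ⟨_, rfl⟩, zero_add]

theorem univ_of (K : Type) [Field K] [NumberField K] (t : ℕ) (F : Fin t → Type)
    [∀ i, Field (F i)] [∀ i, NumberField (F i)] [∀ i, Algebra K (F i)] (a : Fin t → ℤ)
    (h : ∀ v : K →+* ℝ, ∑ i, a i * (realAbove (F i) v : ℤ) = 0) :
    ∃ (m r : ℕ) (Y : Fin r → Type) (_ : ∀ j, Field (Y j)) (_ : ∀ j, NumberField (Y j))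
      (_ : ∀ j, Algebra K (Y j)) (n : Fin r → ℤ), m ≠ 0 ∧ (∀ j, CyclicType K (Y j)) ∧
      (∀ (w d : ℕ) (X : EulerFactors K w d) (U : Set ℂ), w ≠ 0 → Region w U →
        ∃ (k : ℕ) (q : ℚ) (Λ : ℂ → ℂ), k ≠ 0 ∧ q ≠ 0 ∧ MeromorphicOn Λ U ∧
          (∀ s : ℂ, (w : ℝ) / 2 + 1 < s.re → ∀ (L : Fin t → ℂ) (M : Fin r → ℂ),
            (∀ i, HasProd (factor X (F i) s) (L i)) → (∀ j, HasProd (factor X (Y j) s) (M j)) →
            Λ s = ((∏ i, (X.rest (F i) s * L i) ^ a i) ^ m *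
              (∏ j, (X.rest (Y j) s * M j) ^ n j)⁻¹) ^ k) ∧
          meromorphicOrderAt Λ 0 = 0 ∧ meromorphicTrailingCoeffAt Λ 0 = q) ∧
      (∀ (D C : GaloisModules K) (P : Pairing D C),
        (∀ (F : Type) [Field F] [NumberField F] [Algebra K F],
          ∃ R : ℝ, R ≠ 0 ∧ IsRegulator P F R) →
        ∀ (R : Fin t → ℝ) (S : Fin r → ℝ), (∀ i, IsRegulator P (F i) (R i)) →
          (∀ j, IsRegulator P (Y j) (S j)) →
          ∃ (k : ℕ) (q : ℚ), k ≠ 0 ∧ q ≠ 0 ∧
            ((∏ i, R i ^ a i) ^ m) ^ k = q * (∏ j, S j ^ n j) ^ k) := by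
  obtain ⟨m, r, Y, n, hm, hY, hV⟩ := abs_univ (fun i => (⟨F i⟩ : Ext K)) a h
  refine ⟨m, r, fun j => (Y j).F, fun j => inferInstance, fun j => inferInstance,
    fun j => inferInstance, n, hm, fun j => ⟨(hY j).complex, (hY j).cyclic⟩,
    fun w d X U hw hU => ?_, fun D C P hP R S hR hS => ?_⟩
  · have h1 := hV _ _ (formal_gF (X := X) hw hU.2.2)
    simp only [← cl_zpow] at h1
    rw [← cl_prod, ← cl_prod, ← cl_zpow, sub_eq_add_neg, ← cl_inv, ← cl_mul] at h1
    obtain ⟨k, hk, e, he⟩ := (cl_eq_zero _).1 h1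
    obtain ⟨Λ, h2, h3, h4, h5⟩ := he (algebraMap ℚ ℂ)
    refine ⟨k, e, Λ, hk, e.ne_zero, h2, fun s hs L M hL hM => ?_, h4, ?_⟩
    · rw [h3 ⟨s, hs⟩]
      have h6 : ∀ (G : Ext K) (x : ℂ), HasProd (factor X G.F s) x →
          ((gF X G (algebraMap ℚ ℂ) ⟨s, hs⟩ : ℂˣ) : ℂ) = X.rest G.F s * x := by
        intro G x hx
        obtain ⟨L', h7, h8⟩ := gF_val X G (algebraMap ℚ ℂ) ⟨s, hs⟩
        rw [h8, h7.unique hx]
      simp only [Pi.pow_apply, Pi.mul_apply, Pi.inv_apply, Finset.prod_apply, Units.val_mul,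
        Units.val_pow_eq_pow_val, Units.val_inv_eq_inv_val, Units.coe_prod,
        Units.val_zpow_eq_zpow_val, zpow_natCast]
      congr 2
      · congr 1
        refine Finset.prod_congr rfl fun i _ => ?_
        rw [h6 ⟨F i⟩ (L i) (hL i)]
      · congr 1
        refine Finset.prod_congr rfl fun j _ => ?_
        rw [h6 (Y j) (M j) (hM j)]
    · rw [h5]
      have h7 : ((em ℚ e (algebraMap ℚ ℂ) : ℂˣ) : ℂ) = algebraMap ℚ ℂ e := rfl
      rw [h7, eq_ratCast]
  · have hP' : Perf P := fun G => hP G.F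
    have hR0 : ∀ i, R i ≠ 0 := fun i => (ratio_of hP' ⟨F i⟩ (hR i) (hR i)).1
    have hS0 : ∀ j, S j ≠ 0 := fun j => (ratio_of hP' (Y j) (hS j) (hS j)).1
    have h1 := hV _ _ (formal_RA hP')
    have h2 : ∀ i, cl (em ℚ).range (RA hP' (⟨F i⟩ : Ext K)) = cl (em ℚ).range (ra (hR0 i)) :=
      fun i => (cl_ra hP' ⟨F i⟩ (hR i) (hR0 i)).symm
    have h3 : ∀ j, cl (em ℚ).range (RA hP' (Y j)) = cl (em ℚ).range (ra (hS0 j)) :=
      fun j => (cl_ra hP' (Y j) (hS j) (hS0 j)).symm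
    simp only [h2, h3, ← cl_zpow] at h1
    rw [← cl_prod, ← cl_prod, ← cl_zpow, sub_eq_zero] at h1
    obtain ⟨k, hk, e, he⟩ := (cl_eq _).1 h1
    refine ⟨k, e, hk, e.ne_zero, ?_⟩
    have h4 : em ℚ e * (∏ j, ra (hS0 j) ^ n j) ^ k = ((∏ i, ra (hR0 i) ^ a i) ^ (m : ℤ)) ^ k := by
      rw [he, inv_mul_cancel_right]
    have h5 := congrArg (fun z : AA ℚ => (z (algebraMap ℚ ℂ) : ℂ)) h4
    simp only [Pi.mul_apply, Pi.pow_apply, Finset.prod_apply, Units.val_mul,
      Units.val_pow_eq_pow_val, Units.coe_prod, Units.val_zpow_eq_zpow_val, zpow_natCast] at h5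
    have h7 : ((em ℚ e (algebraMap ℚ ℂ) : ℂˣ) : ℂ) = algebraMap ℚ ℂ e := rfl
    rw [h7, eq_ratCast] at h5
    have h8 : (((e : ℚ) : ℝ) * (∏ j, S j ^ n j) ^ k : ℝ) = ((∏ i, R i ^ a i) ^ m) ^ k := by
      have h9 : ((((e : ℚ) : ℝ) * (∏ j, S j ^ n j) ^ k : ℝ) : ℂ) =
          ((((∏ i, R i ^ a i) ^ m) ^ k : ℝ) : ℂ) := by
        push_cast
        exact h5
      exact_mod_cast h9
    exact h8.symm

theorem complex_of (hw : w ≠ 0) (hU : Region w U)
    (hyp : ∀ (F : Type) [Field F] [NumberField F] [Algebra K F], CyclicType K F →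
      Beilinson X U P F) (F : Type) [Field F] [NumberField F] [Algebra K F]
    (hF : IsEmpty (F →+* ℝ)) : Beilinson X U P F := by
  have h := perf_hyp hyp
  obtain ⟨δ, hδ⟩ := abs_defect (formal_Ψ (X := X) hw hU.2.2 h) (hypΨ hU.2.2 h hyp)
  refine (beil_iff hU.2.2 h ⟨F⟩).2 ?_
  rw [hδ ⟨F⟩]
  refine Finset.sum_eq_zero fun v _ => ?_
  have h2 : rr F v = 0 := by
    change Nat.card {ρ : F →+* ℝ // ρ.comp (algebraMap K F) = v} = 0
    rw [Nat.card_eq_zero]
    exact Or.inl ⟨fun x => hF.false x.1⟩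
  rw [h2, Nat.cast_zero, zero_smul]

theorem span_of (hw : w ≠ 0) (hU : Region w U)
    (hyp : ∀ (F : Type) [Field F] [NumberField F] [Algebra K F], CyclicType K F →
      Beilinson X U P F) (t : ℕ) (F : Fin t → Type) [∀ i, Field (F i)]
    [∀ i, NumberField (F i)] [∀ i, Algebra K (F i)]
    (hspan : Submodule.span ℚ (Set.range fun (i : Fin t) (v : K →+* ℝ) =>
      (realAbove (F i) v : ℚ)) = ⊤) (hF : ∀ i, Beilinson X U P (F i))
    (F' : Type) [Field F'] [NumberField F'] [Algebra K F'] : Beilinson X U P F' := by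
  have h := perf_hyp hyp
  exact (beil_iff hU.2.2 h ⟨F'⟩).2 (abs_all (formal_Ψ (X := X) hw hU.2.2 h)
    (hypΨ hU.2.2 h hyp) (fun i => (⟨F i⟩ : Ext K)) hspan
    (fun i => (beil_iff hU.2.2 h ⟨F i⟩).1 (hF i)) ⟨F'⟩)

theorem leading_of (hw : w ≠ 0) (hU : Region w U)
    (hyp : ∀ (F : Type) [Field F] [NumberField F] [Algebra K F], CyclicType K F →
      Beilinson X U P F) :
    ∃ δ : (K →+* ℝ) → ℂ, (∀ v, δ v ≠ 0) ∧
      ∀ (F : Type) [Field F] [NumberField F] [Algebra K F] (k : ℕ) (n : ℤ) (x : ℂ) (R : ℝ),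
        k ≠ 0 → Continues X U F k n x → IsRegulator P F R →
        ∃ (j : ℕ) (q : ℚ), j ≠ 0 ∧ q ≠ 0 ∧
          x ^ j = q * ((R : ℂ) * ∏ v : K →+* ℝ, δ v ^ realAbove F v) ^ (k * j) := by
  have h := perf_hyp hyp
  obtain ⟨δ, hδ⟩ := leading_general hU.2.2 hU.1 hU.2.1 (formal_Ψ (X := X) hw hU.2.2 h)
    (hypΨ hU.2.2 h hyp)
  refine ⟨fun v => (δ v (algebraMap ℚ ℂ) : ℂˣ), fun v => Units.ne_zero _,
    fun F _ _ _ k n x R hk hc hR => ?_⟩
  obtain ⟨u, hu, h1⟩ := (cont_iff hU.2.2 ⟨F⟩ k n x).1 hc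
  have h2 := hδ ⟨F⟩ k _ _ hk h1
  obtain ⟨j, hj, e, he⟩ := (cl_eq _).1 h2
  obtain ⟨-, -, q', hq', h3⟩ := ratio_of h ⟨F⟩ hR (h ⟨F⟩).choose_spec.2
  have h4 : em ℚ e * ((RA h ⟨F⟩ * ∏ v : K →+* ℝ, δ v ^ rr F v) ^ k) ^ j = (fun _ => u) ^ j := by
    rw [he, inv_mul_cancel_right]
  have h5 := congrArg (fun z : AA ℚ => (z (algebraMap ℚ ℂ) : ℂ)) h4
  simp only [Pi.mul_apply, Pi.pow_apply, Finset.prod_apply, Units.val_mul,
    Units.val_pow_eq_pow_val, Units.coe_prod, hu] at h5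
  have h6 : ((em ℚ e (algebraMap ℚ ℂ) : ℂˣ) : ℂ) = ((e : ℚ) : ℂ) := by
    have h7 : ((em ℚ e (algebraMap ℚ ℂ) : ℂˣ) : ℂ) = algebraMap ℚ ℂ e := rfl
    rw [h7, eq_ratCast]
  have h8 : (R : ℂ) = (q' : ℂ) * ((RA h ⟨F⟩ (algebraMap ℚ ℂ) : ℂˣ) : ℂ) := by
    rw [h3]
    push_cast
    rfl
  have hq'' : (q' : ℂ) ≠ 0 := by exact_mod_cast hq'
  refine ⟨j, e * (q' ^ (k * j))⁻¹, hj, mul_ne_zero e.ne_zero
    (inv_ne_zero (pow_ne_zero _ hq')), ?_⟩
  rw [← h5, h6, h8, mul_assoc (q' : ℂ), mul_pow (q' : ℂ), ← pow_mul]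
  push_cast
  change _ = ((e : ℚ) : ℂ) * ((q' : ℂ) ^ (k * j))⁻¹ * ((q' : ℂ) ^ (k * j) *
    (((RA h ⟨F⟩ (algebraMap ℚ ℂ) : ℂˣ) : ℂ) * ∏ v : K →+* ℝ,
      ((δ v (algebraMap ℚ ℂ) : ℂˣ) : ℂ) ^ rr F v) ^ (k * j))
  rw [mul_assoc (((e : ℚ)) : ℂ), inv_mul_cancel_left₀ (pow_ne_zero _ hq'')]

end

section rat
variable {D C : GaloisModules ℚ} {P : Pairing D C} {w d : ℕ} {X : EulerFactors ℚ w d}
  {U : Set ℂ}

theorem rat_iff (hw : w ≠ 0) (hU : Region w U) :
    (∀ (F : Type) [Field F] [NumberField F], Beilinson X U P F) ↔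
    (∀ (F : Type) [Field F] [NumberField F], CyclicType ℚ F → Beilinson X U P F) ∧
      ∃ (F₀ : Type) (_ : Field F₀) (_ : NumberField F₀), Nonempty (F₀ →+* ℝ) ∧
        Beilinson X U P F₀ := by
  constructor
  · intro h
    exact ⟨fun F _ _ _ => h F, ℚ, inferInstance, inferInstance, ⟨Rat.castHom ℝ⟩, h ℚ⟩
  · rintro ⟨hyp, F₀, _, _, hne, h0⟩ F _ _
    have hyp' : ∀ (F : Type) [Field F] [NumberField F] [Algebra ℚ F], CyclicType ℚ F →
        Beilinson X U P F := fun F _ _ inst hF => by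
      have h1 : inst = DivisionRing.toRatAlgebra := Subsingleton.elim _ _
      subst h1
      exact hyp F hF
    refine span_of hw hU hyp' 1 (fun _ => F₀) ?_ (fun _ => h0) F
    rw [eq_top_iff]
    rintro y -
    have hr : ∀ v : ℚ →+* ℝ, realAbove F₀ v = Nat.card (F₀ →+* ℝ) := fun v =>
      Nat.card_congr (Equiv.subtypeUnivEquiv fun ρ => Subsingleton.elim _ _)
    have h6 : (Nat.card (F₀ →+* ℝ) : ℚ) ≠ 0 := Nat.cast_ne_zero.2 (by
      have : Nonempty (F₀ →+* ℝ) := hne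
      exact Nat.card_pos.ne')
    have h2 : y = (y (Rat.castHom ℝ) / (Nat.card (F₀ →+* ℝ) : ℚ)) •
        (fun v : ℚ →+* ℝ => (realAbove F₀ v : ℚ)) := by
      funext v
      rw [Pi.smul_apply, smul_eq_mul, hr, Subsingleton.elim v (Rat.castHom ℝ)]
      field_simp
    rw [h2]
    exact Submodule.smul_mem _ _ (Submodule.subset_span ⟨0, rfl⟩)

end rat

end proof

/-- **Main theorem.** -/
theorem result :
    -- 0. the universal relations
    (∀ (K : Type) [Field K] [NumberField K] (t : ℕ) (F : Fin t → Type)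
      [∀ i, Field (F i)] [∀ i, NumberField (F i)] [∀ i, Algebra K (F i)] (a : Fin t → ℤ),
      (∀ v : K →+* ℝ, ∑ i, a i * (realAbove (F i) v : ℤ) = 0) →
      ∃ (m r : ℕ) (Y : Fin r → Type) (_ : ∀ j, Field (Y j)) (_ : ∀ j, NumberField (Y j))
        (_ : ∀ j, Algebra K (Y j)) (n : Fin r → ℤ), m ≠ 0 ∧ (∀ j, CyclicType K (Y j)) ∧
        (∀ (w d : ℕ) (X : EulerFactors K w d) (U : Set ℂ), w ≠ 0 → Region w U →
          ∃ (k : ℕ) (q : ℚ) (Λ : ℂ → ℂ), k ≠ 0 ∧ q ≠ 0 ∧ MeromorphicOn Λ U ∧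
            (∀ s : ℂ, (w : ℝ) / 2 + 1 < s.re → ∀ (L : Fin t → ℂ) (M : Fin r → ℂ),
              (∀ i, HasProd (factor X (F i) s) (L i)) →
              (∀ j, HasProd (factor X (Y j) s) (M j)) →
              Λ s = ((∏ i, (X.rest (F i) s * L i) ^ a i) ^ m *
                (∏ j, (X.rest (Y j) s * M j) ^ n j)⁻¹) ^ k) ∧
            meromorphicOrderAt Λ 0 = 0 ∧ meromorphicTrailingCoeffAt Λ 0 = q) ∧
        (∀ (D C : GaloisModules K) (P : Pairing D C),
          (∀ (F : Type) [Field F] [NumberField F] [Algebra K F],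
            ∃ R : ℝ, R ≠ 0 ∧ IsRegulator P F R) →
          ∀ (R : Fin t → ℝ) (S : Fin r → ℝ), (∀ i, IsRegulator P (F i) (R i)) →
            (∀ j, IsRegulator P (Y j) (S j)) →
            ∃ (k : ℕ) (q : ℚ), k ≠ 0 ∧ q ≠ 0 ∧
              ((∏ i, R i ^ a i) ^ m) ^ k = q * (∏ j, S j ^ n j) ^ k)) ∧
    -- over any number field `K`, if the conjecture holds for totally complex fields of cyclic type:
    (∀ (K : Type) [Field K] [NumberField K] (w d : ℕ) (X : EulerFactors K w d) (U : Set ℂ)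
      (D C : GaloisModules K) (P : Pairing D C), w ≠ 0 → Region w U →
      (∀ (F : Type) [Field F] [NumberField F] [Algebra K F], CyclicType K F →
        Beilinson X U P F) →
      -- 1. part (1) for all fields, the conjecture for all totally complex fields
      (∀ (F : Type) [Field F] [NumberField F] [Algebra K F],
        ∃ R : ℝ, R ≠ 0 ∧ IsRegulator P F R) ∧
      (∀ (F : Type) [Field F] [NumberField F] [Algebra K F], IsEmpty (F →+* ℝ) →
        Beilinson X U P F) ∧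
      -- 2. the defects of the real places
      (∃ δ : (K →+* ℝ) → ℂ, (∀ v, δ v ≠ 0) ∧
        ∀ (F : Type) [Field F] [NumberField F] [Algebra K F] (k : ℕ) (n : ℤ) (x : ℂ) (R : ℝ),
          k ≠ 0 → Continues X U F k n x → IsRegulator P F R →
          ∃ (j : ℕ) (q : ℚ), j ≠ 0 ∧ q ≠ 0 ∧
            x ^ j = q * ((R : ℂ) * ∏ v : K →+* ℝ, δ v ^ realAbove F v) ^ (k * j)) ∧
      -- 3. finitely many fields suffice for the rest
      (∀ (t : ℕ) (F : Fin t → Type) [∀ i, Field (F i)] [∀ i, NumberField (F i)]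
          [∀ i, Algebra K (F i)],
        Submodule.span ℚ (Set.range fun (i : Fin t) (v : K →+* ℝ) =>
          (realAbove (F i) v : ℚ)) = ⊤ →
        (∀ i, Beilinson X U P (F i)) →
        ∀ (F' : Type) [Field F'] [NumberField F'] [Algebra K F'], Beilinson X U P F')) ∧
    -- 4. over `ℚ`: all number fields, the totally complex ones, and one real field
    (∀ (w d : ℕ) (X : EulerFactors ℚ w d) (U : Set ℂ) (D C : GaloisModules ℚ)
      (P : Pairing D C), w ≠ 0 → Region w U →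
      ((∀ (F : Type) [Field F] [NumberField F], Beilinson X U P F) ↔
        (∀ (F : Type) [Field F] [NumberField F], CyclicType ℚ F → Beilinson X U P F) ∧
          ∃ (F₀ : Type) (_ : Field F₀) (_ : NumberField F₀), Nonempty (F₀ →+* ℝ) ∧
            Beilinson X U P F₀)) :=
  ⟨fun K _ _ t F _ _ _ a h => univ_of K t F a h,
    fun _ _ _ _ _ _ _ _ _ _ hw hU hyp => ⟨fun F _ _ _ => perf_hyp hyp ⟨F⟩,
    fun F _ _ _ hF => complex_of hw hU hyp F hF, leading_of hw hU hyp,
    fun t F _ _ _ hspan hF F' _ _ _ => span_of hw hU hyp t F hspan hF F'⟩,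
    fun _ _ _ _ _ _ _ hw hU => rat_iff hw hU⟩

end Pool.Agent.Results.MP_4a177b_nt.TotallyComplexFieldsSuffice
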